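import Pool.Agent.Q198.Orig.Main

/-!
# Bounded-length Kuratowski minors in the orbit graphs of origamis in H(2)

All definitions are in `Pool.Agent.Q198.Orig.Defs`.
-/

open Q198.Orig

namespace Pool.Agent.Results.MP_7a6c3d_gt.LocalKuratowski

/-- For more than `2 ^ 34` squares every orbit graph of primitive origamis in `H(2)` contains a
`5`-local `K₃,₃` minor.  Consequently there is one constant `L` such that, for every number of
squares, every orbit graph containing a `K₃,₃` or `K₅` minor at all contains an `L`-local one. -/
theorem result :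
    (∀ n : ℕ, 2 ^ 34 < n → ∀ O : Origami n, IsPrimitiveH2 O → LocalMinor K33 (orbitGraph O) 5) ∧
    (∃ L : ℕ, ∀ (n : ℕ) (O : Origami n), IsPrimitiveH2 O →
      (∃ L' : ℕ, LocalMinor K33 (orbitGraph O) L' ∨ LocalMinor K5 (orbitGraph O) L') →
        LocalMinor K33 (orbitGraph O) L ∨ LocalMinor K5 (orbitGraph O) L) :=
  main

end Pool.Agent.Results.MP_7a6c3d_gt.LocalKuratowski
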